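import Mathlib
import Pool.Agent.H594.WI.Multi
import Pool.Agent.H594.KP.Dual
import Pool.Graph.R_seed8.R350.HJ

/-!
# Arbitrary elliptic logarithms, arbitrary logarithms, and logarithms near the values of functions

Let `Ω` be a lattice with algebraic invariants `g₂`, `g₃` and let `p_1, …, p_m` be ARBITRARY elliptic
logarithms of algebraic points (`℘ (p_i)` algebraic, or `p_i ∈ Ω`), linearly independent over
`k = End(ℂ/Ω) ⊗ ℚ`. Let `f_j = A_j / B_j`, `1 ≤ j ≤ k`, be rational functions with algebraic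
coefficients, with simple zeros and poles only, no two of them with a common zero or pole, each of
them with at least `N` zeros and poles in `ℂ`. We show that for all but finitely many algebraic
numbers `z` of degree at most `d` over a number field the following holds for ALL algebraic numbers
`δ_j ≠ 0` (of any degree) with `h(δ_j) ≤ κ h(z)`, `κ < (N - 2 d) / 2`, and for all logarithms `l_j` of
`δ_j f_j(z)`: in every relation

  `P_0(p) + Q_1(p) l_1 + ⋯ + Q_k(p) l_k + P_1(p) λ_1 + ⋯ + P_r(p) λ_r = 0`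

with ANY linear forms `λ_i`, with algebraic coefficients, in `1` and logarithms of algebraic numbers
(any number of them, no condition on them), and with polynomials with algebraic coefficients, of
degree at most `1` (of any given degree, if there is only one `p`), the `Q_j` are linear
combinations of `P_1, …, P_r`. In particular `l_1, …, l_k` and the `p_i` satisfy no relation which is
linear in the `l_j` and has one of these forms. The exceptional set does not depend on the relation,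
on `r` and on the `λ_i`.

For algebraic integers `z` one can take `κ < (N - 2 d + 1) / 2`. For one function `f` of degree `M`,
with zeros and poles on the projective line of multiplicity at most `m` and `m'`, one can take
`κ < M - 2 d m m' / (m + m')`, and for a polynomial and algebraic integers `κ < M - (2 d - 1) m`; for
instance, for `κ < k - 1` and large `n` the conclusion holds for `δ n (n + 1) ⋯ (n + k - 1)`,
`h(δ) ≤ κ log n`.

By the theorem of Waldschmidt and Roy on points of hyperplanes with coordinates in the space of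
linear forms in logarithms (starting files `Pool.Agent.W254.HP`) the exceptional `δ_j f_j(z)` are
multiplicatively dependent modulo a group of finite rank which depends only on the `p_i` and the
degree. The places at which its elements are not units are treated with Wirsing's theorem (a theorem
of the library). The linear independence of `1` and the `p_i` is the theorem of Schneider and Masser
(`Pool.Agent.W245.EB.second_kind` of the library).
-/


set_option autoImplicit false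

namespace Pool.Agent.Results.MP_c9768e_nt.ArbitraryLogsNearValues

open Pool.Agent.H594.ML
open Pool.Agent.H594.KP (free_main)
open Pool.Agent.H594.BD (degLe_alg)
open Pool.Agent.Helper259.AbsHt (Qbar)
open Pool.Agent.Y215.SK (DivHull h1)
open scoped PeriodPair

/-- The absolute logarithmic height of an algebraic number `z`. (The image of the embedding `sg` of
an algebraic closure of `ℚ` consists of the algebraic numbers, and `h1 a` is the absolute
logarithmic height of `a`; for transcendental `z` the value has no meaning. See part (0) of the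
theorem.) -/
noncomputable def ht (z : ℂ) : ℝ := h1 (Function.invFun sg z)

/-- The linear combinations, with algebraic coefficients, of `1` and of logarithms of algebraic
numbers. -/
noncomputable def LogForms : Submodule (algebraicClosure ℚ ℂ) ℂ :=
  Submodule.span (algebraicClosure ℚ ℂ) ({1} ∪ {z : ℂ | IsAlgebraic ℚ (Complex.exp z)})

/-- `β` belongs to the field `k = End(ℂ/Ω) ⊗ ℚ`: some multiple `m β`, `m ≥ 1`, maps the lattice `Ω`
to itself. -/
def IsMult (L : PeriodPair) (β : ℂ) : Prop :=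
  ∃ m : ℕ, 0 < m ∧ ∀ ω ∈ L.lattice, (m : ℂ) * β * ω ∈ L.lattice

/-- The `p_i` are elliptic logarithms of algebraic points (the elements of the lattice are allowed)
and linearly independent over `k`. -/
def EllipticLogs (L : PeriodPair) {m : ℕ} (p : Fin m → ℂ) : Prop :=
  (∀ i, p i ∈ L.lattice ∨ IsAlgebraic ℚ (℘[L] (p i))) ∧
  ∀ β : Fin m → ℂ, (∀ i, IsMult L (β i)) → ∑ i, β i * p i = 0 → ∀ i, β i = 0

/-- the polynomials of degree at most `1`, and those of degree at most `D` if there is only one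
variable -/
def LowDeg {m : ℕ} (D : ℕ) (P : MvPolynomial (Fin m) (algebraicClosure ℚ ℂ)) : Prop :=
  ∀ β ∈ P.support, ∑ i, β i ≤ 1 ∨ (m = 1 ∧ ∑ i, β i ≤ D)

/-- In all relations `P_0(p) + Q_1(p) l_1 + ⋯ + Q_k(p) l_k + P_1(p) λ_1 + ⋯ + P_r(p) λ_r = 0` with
polynomials `LowDeg` over the algebraic numbers, `l_j` any logarithm of `c_j` and arbitrary `λ_i` in
`LogForms` (any number of them) the `Q_j` are linear combinations of the `P_i`. -/
def OnlyTrivial {m k : ℕ} (p : Fin m → ℂ) (D : ℕ) (c : Fin k → ℂ) : Prop :=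
  ∀ l : Fin k → ℂ, (∀ j, Complex.exp (l j) = c j) →
    ∀ (r : ℕ) (P₀ : MvPolynomial (Fin m) (algebraicClosure ℚ ℂ))
      (P : Fin r → MvPolynomial (Fin m) (algebraicClosure ℚ ℂ))
      (Q : Fin k → MvPolynomial (Fin m) (algebraicClosure ℚ ℂ)),
      LowDeg D P₀ → (∀ i, LowDeg D (P i)) → (∀ j, LowDeg D (Q j)) →
      ∀ lam : Fin r → ℂ, (∀ i, lam i ∈ LogForms) →
        MvPolynomial.aeval p P₀ + ∑ j, MvPolynomial.aeval p (Q j) * l j +
          ∑ i, MvPolynomial.aeval p (P i) * lam i = 0 →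
        ∀ j, ∃ b : Fin r → algebraicClosure ℚ ℂ, Q j = ∑ i, MvPolynomial.C (b i) * P i

/-- the polynomials all of whose coefficients are algebraic numbers, not zero -/
def AlgPoly : Set (Polynomial ℂ) := {P | P ≠ 0 ∧ ∀ i, IsAlgebraic ℚ (P.coeff i)}

/-- the algebraic numbers of degree at most `d` over `K` -/
def DegLe (K : IntermediateField ℚ ℂ) (d : ℕ) : Set ℂ :=
  {z | ∃ P : Polynomial ℂ, P ≠ 0 ∧ P.natDegree ≤ d ∧ (∀ i, P.coeff i ∈ K) ∧ P.eval z = 0}

/-- All zeros of `A / B` (`A`, `B` without common zeros) on the projective line have multiplicity at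
most `m`. (The order of the zero at infinity is the difference of the degrees.) -/
def ZerosLe (A B : Polynomial ℂ) (m : ℕ) : Prop :=
  (∀ a, A.rootMultiplicity a ≤ m) ∧ B.natDegree - A.natDegree ≤ m

/-- The zeros of the `A_j` and `B_j` are simple and different from each other. -/
def Separate {k : ℕ} (A B : Fin k → Polynomial ℂ) : Prop :=
  ∀ a, ∑ j, ((A j).rootMultiplicity a + (B j).rootMultiplicity a) ≤ 1

theorem ht_sg (y : Qbar) : ht (sg y) = h1 y := by
  unfold ht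
  rw [Function.leftInverse_invFun sg_inj y]

theorem ht_nonneg (z : ℂ) : 0 ≤ ht z := Pool.Agent.Y215.SK.h1_nonneg _

theorem ht_eq (z : ℂ) : ht z = Pool.Agent.H594.WI.ht z := rfl

/-- the height in terms of Mathlib's height of the elements of number fields -/
theorem ht_field (L : Type) [Field L] [NumberField L] (φ : L →+* ℂ) (y : L) :
    ht (φ y) = Height.logHeight₁ y / Module.finrank ℚ L := by
  have halg : ∀ x : L, IsAlgebraic ℚ (φ x) := by
    intro x
    have h1 : IsAlgebraic ℚ x := Algebra.IsAlgebraic.isAlgebraic x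
    exact h1.algHom φ.toRatAlgHom
  choose f hf using fun x => exists_sg (halg x)
  let ψ : L →+* Qbar :=
    { toFun := f
      map_one' := sg_inj (by rw [hf, map_one, map_one])
      map_mul' := fun x y => sg_inj (by rw [hf, map_mul, map_mul, hf, hf])
      map_zero' := sg_inj (by rw [hf, map_zero, map_zero])
      map_add' := fun x y => sg_inj (by rw [hf, map_add, map_add, hf, hf]) }
  have h1 : φ y = sg (ψ y) := (hf y).symm
  rw [h1, ht_sg, Pool.Agent.Y215.SK.h1_eq L ψ y]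

theorem ht_rat (q : ℚ) : ht (q : ℂ) = Height.logHeight₁ q := by
  have h := ht_field ℚ (algebraMap ℚ ℂ) q
  rw [Module.finrank_self, Nat.cast_one, div_one] at h
  exact h

theorem ht_nat {n : ℕ} (hn : n ≠ 0) : ht (n : ℂ) = Real.log n := by
  have h := ht_rat n
  have : NeZero n := ⟨hn⟩
  rw [Rat.logHeight₁_natCast n] at h
  exact_mod_cast h

/-- the exponents of the polynomials `LowDeg` -/
def expo (m D : ℕ) : Set (Fin m →₀ ℕ) := {β | ∑ i, β i ≤ 1 ∨ (m = 1 ∧ ∑ i, β i ≤ D)}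

theorem low_iff {m D : ℕ} (P : MvPolynomial (Fin m) (algebraicClosure ℚ ℂ)) :
    LowDeg D P ↔ P ∈ MvPolynomial.restrictSupport (algebraicClosure ℚ ℂ) (expo m D) := by
  rw [MvPolynomial.mem_restrictSupport_iff]
  exact ⟨fun h β hβ => h β hβ, fun h β hβ => h hβ⟩

/-- the space of the values of the polynomials -/
noncomputable def vals {m : ℕ} (p : Fin m → ℂ) (D : ℕ) : Submodule (algebraicClosure ℚ ℂ) ℂ :=
  Submodule.span (algebraicClosure ℚ ℂ) (Set.range
    (Sum.elim p (fun j : Fin (D + 1) => (∑ i, p i) ^ (j : ℕ))))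

theorem vals_fg {m : ℕ} (p : Fin m → ℂ) (D : ℕ) : (vals p D).FG :=
  Submodule.fg_span (Set.finite_range _)

theorem aeval_mem {m : ℕ} (p : Fin m → ℂ) (D : ℕ)
    (P : MvPolynomial (Fin m) (algebraicClosure ℚ ℂ)) (hP : LowDeg D P) :
    MvPolynomial.aeval p P ∈ vals p D := by
  classical
  have hpow : ∀ j ≤ D, (∑ i, p i) ^ j ∈ vals p D := fun j hj =>
    Submodule.subset_span ⟨Sum.inr ⟨j, Nat.lt_succ_of_le hj⟩, rfl⟩
  have hW : ∀ μ ∈ P.support, ∏ i, p i ^ μ i ∈ vals p D := by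
    intro μ hμ
    rcases hP μ hμ with h | ⟨rfl, h⟩
    · by_cases hz : ∀ i, μ i = 0
      · rw [Finset.prod_eq_one (fun i _ => by rw [hz i, pow_zero])]
        have := hpow 0 (Nat.zero_le _)
        rwa [pow_zero] at this
      · push Not at hz
        obtain ⟨i, hi⟩ := hz
        rw [← Finset.add_sum_erase _ _ (Finset.mem_univ i)] at h
        have h4 : ∀ j ≠ i, μ j = 0 := by
          intro j hj
          have h6 : μ j ≤ ∑ x ∈ Finset.univ.erase i, μ x :=
            Finset.single_le_sum (f := fun i => μ i) (fun _ _ => Nat.zero_le _)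
              (Finset.mem_erase.2 ⟨hj, Finset.mem_univ j⟩)
          omega
        rw [Finset.prod_eq_single i (fun j _ hj => by rw [h4 j hj, pow_zero])
          (fun h => absurd (Finset.mem_univ _) h)]
        have h7 : μ i = 1 := by omega
        rw [h7, pow_one]
        exact Submodule.subset_span ⟨Sum.inl i, rfl⟩
    · have := hpow (μ 0) (by rwa [Fin.sum_univ_one] at h)
      rw [Fin.sum_univ_one] at this
      rwa [Fin.prod_univ_one]
  rw [MvPolynomial.aeval_def, MvPolynomial.eval₂_eq]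
  refine Submodule.sum_mem _ fun μ hμ => ?_
  have h1 := Submodule.smul_mem (vals p D) (MvPolynomial.coeff μ P) (hW μ hμ)
  rw [Algebra.smul_def] at h1
  have h2 : ∏ i ∈ μ.support, p i ^ μ i = ∏ i, p i ^ μ i := by
    refine Finset.prod_subset (Finset.subset_univ _) fun i _ hi => ?_
    rw [Finsupp.notMem_support_iff.1 hi, pow_zero]
  rw [h2]
  exact h1

/-- the theorem of Schneider and Masser: no relation of low degree between elliptic logarithms -/
theorem no_relation {L : PeriodPair} (h2 : IsAlgebraic ℚ L.g₂) (h3 : IsAlgebraic ℚ L.g₃) {m : ℕ}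
    {p : Fin m → ℂ} (hp : EllipticLogs L p) (D : ℕ)
    (Q : MvPolynomial (Fin m) (algebraicClosure ℚ ℂ)) (hQ : LowDeg D Q)
    (h0 : MvPolynomial.aeval p Q = 0) : Q = 0 := by
  have hp' : Pool.Agent.R350.EllLogs L p := hp
  by_cases hm : m = 1
  · subst hm
    exact Pool.Agent.R350.ell_trans h2 h3 hp' Q h0
  · refine Pool.Agent.R350.eq_zero_of_deg_one p (Pool.Agent.R350.ell_li h2 h3 hp') Q
      (fun β hβ => ?_) h0
    rcases hQ β hβ with h | ⟨h, -⟩
    · exact h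
    · exact absurd h hm

/-- sufficiently general numbers have only trivial relations -/
theorem trivial_of {L : PeriodPair} (h2 : IsAlgebraic ℚ L.g₂) (h3 : IsAlgebraic ℚ L.g₃) {n : ℕ}
    {p : Fin n → ℂ} (hp : EllipticLogs L p) (D : ℕ) :
    ∃ Γ : Subgroup Qbarˣ, Γ.FG ∧ ∀ (k : ℕ) (c : Fin k → ℂ), (∀ j, IsAlgebraic ℚ (c j)) →
      ¬ OnlyTrivial p D c → ∃ m : Fin k → ℤ, m ≠ 0 ∧ ∃ u ∈ DivHull Γ, ∏ j, c j ^ m j = sg u := by
  obtain ⟨Γ, hΓ, hmain⟩ := free_main (vals p D) (vals_fg p D)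
  refine ⟨Γ, hΓ, fun k c hc hno => ?_⟩
  by_contra hind
  push Not at hind
  apply hno
  intro l hl r P₀ P Q hP₀ hP hQ lam hlam he j
  let Y : Submodule (algebraicClosure ℚ ℂ) ℂ :=
    Submodule.span (algebraicClosure ℚ ℂ) (Set.range fun i => MvPolynomial.aeval p (P i))
  have hY : Y ≤ vals p D := by
    rw [Submodule.span_le]
    rintro _ ⟨i, rfl⟩
    exact aeval_mem p D (P i) (hP i)
  have h1 := hmain k c hc (fun m hm => fun ⟨u, hu, e⟩ => hind m hm u hu e) l hl _ hY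
    (MvPolynomial.aeval p P₀) (aeval_mem p D P₀ hP₀) (fun j => MvPolynomial.aeval p (Q j))
    (fun j => aeval_mem p D (Q j) (hQ j)) (by
      have h3 : ∑ i, MvPolynomial.aeval p (P i) * (-lam i) ∈ Y * LogForms :=
        Submodule.sum_mem _ fun i _ => Submodule.mul_mem_mul
          (Submodule.subset_span ⟨i, rfl⟩) (LogForms.neg_mem (hlam i))
      have h4 : MvPolynomial.aeval p P₀ + ∑ j, MvPolynomial.aeval p (Q j) * l j =
          ∑ i, MvPolynomial.aeval p (P i) * (-lam i) := by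
        have h5 : ∑ i, MvPolynomial.aeval p (P i) * (-lam i) =
            -∑ i, MvPolynomial.aeval p (P i) * lam i := by
          rw [← Finset.sum_neg_distrib]
          exact Finset.sum_congr rfl fun i _ => by ring
        rw [h5]
        linear_combination he
      rw [h4]
      exact h3) j
  obtain ⟨b, hb⟩ := (Submodule.mem_span_range_iff_exists_fun (algebraicClosure ℚ ℂ)).1 h1
  refine ⟨b, ?_⟩
  refine sub_eq_zero.1 (no_relation h2 h3 hp D _ ?_ ?_)
  · rw [low_iff]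
    refine Submodule.sub_mem _ ((low_iff _).1 (hQ j)) (Submodule.sum_mem _ fun i _ => ?_)
    rw [← MvPolynomial.smul_eq_C_mul]
    exact Submodule.smul_mem _ _ ((low_iff _).1 (hP i))
  · rw [map_sub, map_sum, ← hb, sub_eq_zero]
    refine Finset.sum_congr rfl fun i _ => ?_
    rw [map_mul, MvPolynomial.aeval_C, ← Algebra.smul_def]

theorem eval_alg {P : Polynomial ℂ} (hP : ∀ i, IsAlgebraic ℚ (P.coeff i)) {z : ℂ}
    (hz : IsAlgebraic ℚ z) : IsAlgebraic ℚ (P.eval z) := by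
  rw [Polynomial.eval_eq_sum_range]
  exact Finset.sum_induction _ (IsAlgebraic ℚ) (fun a b ha hb => ha.add hb) isAlgebraic_zero
    fun i _ => (hP i).mul (hz.pow i)

theorem value_alg {A B : Polynomial ℂ} (hA : A ∈ AlgPoly) (hB : B ∈ AlgPoly) {z δ : ℂ}
    (hz : IsAlgebraic ℚ z) (hδ : IsAlgebraic ℚ δ) : IsAlgebraic ℚ (δ * (A.eval z / B.eval z)) := by
  refine hδ.mul ?_
  rw [div_eq_mul_inv]
  exact (eval_alg hA.2 hz).mul (eval_alg hB.2 hz).inv

/-- several functions -/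
theorem values_multi {L : PeriodPair} (h2 : IsAlgebraic ℚ L.g₂) (h3 : IsAlgebraic ℚ L.g₃) {n : ℕ}
    {p : Fin n → ℂ} (hp : EllipticLogs L p) (D : ℕ)
    (K : IntermediateField ℚ ℂ) [FiniteDimensional ℚ K] (d : ℕ) (hd : 1 ≤ d) {k : ℕ}
    (A B : Fin k → Polynomial ℂ) (hA : ∀ j, A j ∈ AlgPoly) (hB : ∀ j, B j ∈ AlgPoly)
    (hAB : Separate A B) (N : ℕ) (hN : ∀ j, N ≤ (A j).natDegree + (B j).natDegree) (ε : ℝ)
    (hε : 0 < ε) :
    ∃ C : ℝ, ∀ z ∈ DegLe K d, (∀ j, (A j).eval z ≠ 0 ∧ (B j).eval z ≠ 0) → ∀ δ : Fin k → ℂ,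
      (∀ j, IsAlgebraic ℚ (δ j)) → ∀ H : ℝ, (∀ j, ht (δ j) ≤ H) →
      ¬ OnlyTrivial p D (fun j => δ j * ((A j).eval z / (B j).eval z)) →
      (((N : ℝ) - 2 * d) / 2 - ε) * ht z - C ≤ H ∧
      (IsIntegral ℤ z → (((N : ℝ) - (2 * d - 1)) / 2 - ε) * ht z - C ≤ H) := by
  obtain ⟨Γ, hΓ, hexc⟩ := trivial_of h2 h3 hp D
  obtain ⟨C, -, hC⟩ := Pool.Agent.H594.WI.sqf_height Γ hΓ K d hd A B (fun j => (hA j).2)
    (fun j => (hB j).2) (fun j => (hA j).1) (fun j => (hB j).1) hAB N hN ε hε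
  refine ⟨C, fun z hz hAB δ hδ H hH hno => ?_⟩
  have hz' : IsAlgebraic ℚ z := degLe_alg (K := K) (d := d) hz
  obtain ⟨m, hm, u, hu, he⟩ := hexc k _ (fun j => value_alg (hA j) (hB j) hz' (hδ j)) hno
  exact hC z hz (fun j => (hAB j).1) (fun j => (hAB j).2) m hm u hu δ hδ H hH he

/-- a single exceptional number is in a group of finite rank -/
theorem one_hull {L : PeriodPair} (h2 : IsAlgebraic ℚ L.g₂) (h3 : IsAlgebraic ℚ L.g₃) {n : ℕ}
    {p : Fin n → ℂ} (hp : EllipticLogs L p) (D : ℕ) :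
    ∃ Γ : Subgroup Qbarˣ, Γ.FG ∧ ∀ a : ℂ, IsAlgebraic ℚ a → a ≠ 0 →
      ¬ OnlyTrivial p D (fun _ : Fin 1 => a) → ∃ u ∈ DivHull Γ, a = sg (u : Qbarˣ) := by
  obtain ⟨Γ, hΓ, hexc⟩ := trivial_of h2 h3 hp D
  refine ⟨Γ, hΓ, fun a ha ha0 hno => ?_⟩
  obtain ⟨u, hu⟩ := exists_unit ha ha0
  obtain ⟨m, hm, v, hv, he⟩ := hexc 1 _ (fun _ => ha) hno
  have hm0 : m 0 ≠ 0 := by
    intro h0
    apply hm
    funext i
    rw [Subsingleton.elim i 0, h0]
    rfl
  rw [Fin.prod_univ_one] at he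
  have h1 : u ^ (m 0) = v := by
    apply sgu_inj
    rw [Units.val_zpow_eq_zpow_val, map_zpow₀, ← hu]
    exact he
  refine ⟨u, ?_, hu⟩
  obtain ⟨r, hr, hvr⟩ := hv
  rw [← h1, ← zpow_natCast, ← zpow_mul] at hvr
  refine ⟨(m 0 * r).natAbs, Int.natAbs_pos.2 (mul_ne_zero hm0 (by exact_mod_cast hr.ne')), ?_⟩
  rcases Int.natAbs_eq (m 0 * r) with h | h
  · rw [h, zpow_natCast] at hvr
    exact hvr
  · rw [h, zpow_neg, zpow_natCast] at hvr
    exact (Subgroup.inv_mem_iff Γ).1 hvr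

/-- from height inequalities to finiteness -/
theorem finite_of (K : IntermediateField ℚ ℂ) [FiniteDimensional ℚ K] (d : ℕ) (c κ C : ℝ)
    (h : κ < c) (S : Set ℂ) (hS : ∀ z ∈ S, z ∈ DegLe K d ∧ ∃ x : ℝ, c * ht z - C ≤ x ∧
      x ≤ κ * ht z) : S.Finite := by
  refine (Pool.Agent.H594.WI.northcott_cx K d (C / (c - κ))).subset ?_
  intro z hz
  obtain ⟨h1, x, h2, h3⟩ := hS z hz
  refine ⟨h1, ?_⟩
  have h4 : 0 < c - κ := sub_pos.2 h
  rw [← ht_eq, le_div_iff₀ h4]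
  linarith

/-- several functions, finiteness -/
theorem finite_multi {L : PeriodPair} (h2 : IsAlgebraic ℚ L.g₂) (h3 : IsAlgebraic ℚ L.g₃) {n : ℕ}
    {p : Fin n → ℂ} (hp : EllipticLogs L p) (D : ℕ)
    (K : IntermediateField ℚ ℂ) [FiniteDimensional ℚ K] (d : ℕ) (hd : 1 ≤ d) {k : ℕ}
    (A B : Fin k → Polynomial ℂ) (hA : ∀ j, A j ∈ AlgPoly) (hB : ∀ j, B j ∈ AlgPoly)
    (hAB : Separate A B) (N : ℕ) (hN : ∀ j, N ≤ (A j).natDegree + (B j).natDegree) (κ : ℝ) :
    {z : ℂ | z ∈ DegLe K d ∧ (κ < ((N : ℝ) - 2 * d) / 2 ∨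
        (IsIntegral ℤ z ∧ κ < ((N : ℝ) - (2 * d - 1)) / 2)) ∧
      (∀ j, (A j).eval z ≠ 0 ∧ (B j).eval z ≠ 0) ∧ ∃ δ : Fin k → ℂ,
      (∀ j, IsAlgebraic ℚ (δ j) ∧ δ j ≠ 0 ∧ ht (δ j) ≤ κ * ht z) ∧
      ¬ OnlyTrivial p D (fun j => δ j * ((A j).eval z / (B j).eval z))}.Finite := by
  have main : ∀ (P : ℂ → Prop) (T : ℝ), κ < ((N : ℝ) - T) / 2 → (∀ ε : ℝ, 0 < ε → ∃ C : ℝ,
      ∀ z ∈ DegLe K d, (∀ j, (A j).eval z ≠ 0 ∧ (B j).eval z ≠ 0) → ∀ δ : Fin k → ℂ,
      (∀ j, IsAlgebraic ℚ (δ j)) → ∀ H : ℝ, (∀ j, ht (δ j) ≤ H) →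
      ¬ OnlyTrivial p D (fun j => δ j * ((A j).eval z / (B j).eval z)) → P z →
      (((N : ℝ) - T) / 2 - ε) * ht z - C ≤ H) →
      {z : ℂ | z ∈ DegLe K d ∧ P z ∧
      (∀ j, (A j).eval z ≠ 0 ∧ (B j).eval z ≠ 0) ∧ ∃ δ : Fin k → ℂ,
      (∀ j, IsAlgebraic ℚ (δ j) ∧ δ j ≠ 0 ∧ ht (δ j) ≤ κ * ht z) ∧
      ¬ OnlyTrivial p D (fun j => δ j * ((A j).eval z / (B j).eval z))}.Finite := by
    intro P T hT h
    obtain ⟨C, hC⟩ := h ((((N : ℝ) - T) / 2 - κ) / 2) (by linarith)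
    refine finite_of K d (((N : ℝ) - T) / 2 - (((N : ℝ) - T) / 2 - κ) / 2) κ C (by linarith) _ ?_
    rintro z ⟨hz, hP, hne, δ, hδ, hno⟩
    exact ⟨hz, κ * ht z, hC z hz hne δ (fun j => (hδ j).1) _ (fun j => (hδ j).2.2) hno hP, le_rfl⟩
  by_cases h1 : κ < ((N : ℝ) - 2 * d) / 2
  · refine (main (fun _ => True) (2 * d) h1 (fun ε hε => ?_)).subset
      fun z ⟨hz, _, h⟩ => ⟨hz, trivial, h⟩
    obtain ⟨C, hC⟩ := values_multi h2 h3 hp D K d hd A B hA hB hAB N hN ε hε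
    exact ⟨C, fun z hz hne δ hδ H hH hno _ => (hC z hz hne δ hδ H hH hno).1⟩
  · by_cases h4 : κ < ((N : ℝ) - (2 * d - 1)) / 2
    · refine (main (fun z => IsIntegral ℤ z) (2 * d - 1) h4 (fun ε hε => ?_)).subset ?_
      · obtain ⟨C, hC⟩ := values_multi h2 h3 hp D K d hd A B hA hB hAB N hN ε hε
        exact ⟨C, fun z hz hne δ hδ H hH hno hi => (hC z hz hne δ hδ H hH hno).2 hi⟩
      · rintro z ⟨hz, h3, h⟩
        exact ⟨hz, (h3.resolve_left h1).1, h⟩
    · refine Set.Finite.subset Set.finite_empty ?_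
      rintro z ⟨hz, h3, h⟩
      rcases h3 with h3 | h3
      · exact absurd h3 h1
      · exact absurd h3.2 h4

/-- one function -/
theorem values_one {L : PeriodPair} (h2 : IsAlgebraic ℚ L.g₂) (h3 : IsAlgebraic ℚ L.g₃) {n : ℕ}
    {p : Fin n → ℂ} (hp : EllipticLogs L p) (D : ℕ)
    (K : IntermediateField ℚ ℂ) [FiniteDimensional ℚ K] (d : ℕ) (hd : 1 ≤ d) (A B : Polynomial ℂ)
    (hA : A ∈ AlgPoly) (hB : B ∈ AlgPoly) (hAB : IsCoprime A B) (m m' : ℕ) (hm0 : 1 ≤ m)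
    (hm0' : 1 ≤ m') (hm : ZerosLe A B m) (hm' : ZerosLe B A m') (ε : ℝ) (hε : 0 < ε) :
    ∃ C : ℝ, ∀ z ∈ DegLe K d, A.eval z ≠ 0 → B.eval z ≠ 0 → ∀ δ : ℂ, IsAlgebraic ℚ δ → δ ≠ 0 →
      ¬ OnlyTrivial p D (fun _ : Fin 1 => δ * (A.eval z / B.eval z)) →
      (max (A.natDegree : ℝ) B.natDegree - 2 * d * (m * m' / (m + m')) - ε) * ht z - C ≤ ht δ := by
  obtain ⟨Γ, hΓ, hexc⟩ := one_hull h2 h3 hp D
  obtain ⟨C, -, hC⟩ := Pool.Agent.H594.WI.one_height Γ hΓ K d hd A B hA.2 hB.2 hA.1 hB.1 hAB m m'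
    hm0 hm0' hm.1 hm.2 hm'.1 hm'.2 ε hε
  refine ⟨C, fun z hz hAz hBz δ hδ hδ0 hno => ?_⟩
  have hz' : IsAlgebraic ℚ z := degLe_alg (K := K) (d := d) hz
  obtain ⟨u, hu, he⟩ := hexc _ (value_alg hA hB hz' hδ) (mul_ne_zero hδ0 (div_ne_zero hAz hBz)) hno
  exact hC z hz hAz hBz u hu δ he

/-- one polynomial, algebraic integers -/
theorem values_int {L : PeriodPair} (h2 : IsAlgebraic ℚ L.g₂) (h3 : IsAlgebraic ℚ L.g₃) {n : ℕ}
    {p : Fin n → ℂ} (hp : EllipticLogs L p) (D : ℕ)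
    (K : IntermediateField ℚ ℂ) [FiniteDimensional ℚ K] (d : ℕ) (hd : 1 ≤ d) (A : Polynomial ℂ)
    (hA : A ∈ AlgPoly) (m : ℕ) (hm0 : 1 ≤ m) (hm : ∀ a, A.rootMultiplicity a ≤ m) (ε : ℝ)
    (hε : 0 < ε) :
    ∃ C : ℝ, ∀ z ∈ DegLe K d, IsIntegral ℤ z → A.eval z ≠ 0 → ∀ δ : ℂ, IsAlgebraic ℚ δ → δ ≠ 0 →
      ¬ OnlyTrivial p D (fun _ : Fin 1 => δ * A.eval z) →
      (A.natDegree - (2 * d - 1) * m - ε) * ht z - C ≤ ht δ := by
  obtain ⟨Γ, hΓ, hexc⟩ := one_hull h2 h3 hp D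
  obtain ⟨C, -, hC⟩ := Pool.Agent.H594.WI.poly_height Γ hΓ K d hd A hA.2 hA.1 m hm0 hm ε hε
  refine ⟨C, fun z hz hzi hAz δ hδ hδ0 hno => ?_⟩
  have hz' : IsAlgebraic ℚ z := degLe_alg (K := K) (d := d) hz
  obtain ⟨u, hu, he⟩ := hexc _ (hδ.mul (eval_alg hA.2 hz')) (mul_ne_zero hδ0 hAz) hno
  exact hC z hz hzi hAz u hu δ he

/-- the polynomial `X (X + 1) ⋯ (X + k - 1)` -/
noncomputable def rising (k : ℕ) : Polynomial ℂ :=
  ∏ i ∈ Finset.range k, (Polynomial.X - Polynomial.C (-(i : ℂ)))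

theorem rising_deg (k : ℕ) : (rising k).natDegree = k := by
  unfold rising
  rw [Polynomial.natDegree_prod_of_monic _ _ fun _ _ => Polynomial.monic_X_sub_C _]
  simp only [Polynomial.natDegree_X_sub_C, Finset.sum_const, Finset.card_range, smul_eq_mul,
    mul_one]

theorem rising_ne (k : ℕ) : rising k ≠ 0 :=
  (Polynomial.monic_prod_of_monic _ _ fun i _ => Polynomial.monic_X_sub_C _).ne_zero

theorem rising_mult (k : ℕ) (a : ℂ) : (rising k).rootMultiplicity a ≤ 1 := by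
  classical
  rw [← Polynomial.count_roots]
  have h1 : (rising k).roots = (Finset.range k).val.map (fun i : ℕ => -(i : ℂ)) := by
    unfold rising
    exact Polynomial.roots_multiset_prod_X_sub_C ((Finset.range k).val.map (fun i : ℕ => -(i : ℂ))) ▸ by
      rw [Multiset.map_map]
      rfl
  rw [h1]
  refine Multiset.nodup_iff_count_le_one.1 ?_ a
  refine (Finset.range k).nodup.map ?_
  intro i j hij
  exact Nat.cast_injective (neg_injective hij)

theorem rising_eval (k : ℕ) (x : ℂ) : (rising k).eval x = ∏ i ∈ Finset.range k, (x + i) := by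
  unfold rising
  rw [Polynomial.eval_prod]
  refine Finset.prod_congr rfl fun i _ => ?_
  simp

theorem rising_alg (k : ℕ) : rising k ∈ AlgPoly := by
  refine ⟨rising_ne k, fun i => ?_⟩
  have h1 : rising k = (∏ i ∈ Finset.range k, ((Polynomial.X : Polynomial ℚ) -
      Polynomial.C (-(i : ℚ)))).map (algebraMap ℚ ℂ) := by
    unfold rising
    rw [Polynomial.map_prod]
    refine Finset.prod_congr rfl fun i _ => ?_
    simp
  rw [h1, Polynomial.coeff_map]
  exact isAlgebraic_algebraMap _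

theorem alg_of_complex {x : ℝ} (h : IsAlgebraic ℚ (x : ℂ)) : IsAlgebraic ℚ x :=
  (isAlgebraic_algebraMap_iff (A := ℂ) Complex.ofReal_injective).1 h

theorem nat_deg (n : ℕ) : (n : ℂ) ∈ DegLe ⊥ 1 := by
  refine ⟨Polynomial.X - Polynomial.C (n : ℂ), Polynomial.X_sub_C_ne_zero _, ?_, fun i => ?_, ?_⟩
  · rw [Polynomial.natDegree_X_sub_C]
  · rw [Polynomial.coeff_sub, Polynomial.coeff_X, Polynomial.coeff_C]
    refine IntermediateField.sub_mem _ ?_ ?_
    · split_ifs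
      · exact IntermediateField.one_mem _
      · exact IntermediateField.zero_mem _
    · split_ifs
      · exact natCast_mem _ n
      · exact IntermediateField.zero_mem _
  · simp

/-- products of consecutive integers -/
theorem consecutive {L : PeriodPair} (h2 : IsAlgebraic ℚ L.g₂) (h3 : IsAlgebraic ℚ L.g₃) {n : ℕ}
    {p : Fin n → ℂ} (hp : EllipticLogs L p) (D k : ℕ) (κ : ℝ) (hκ : κ < k - 1) :
    ∃ N : ℕ, ∀ q : ℕ, N ≤ q → ∀ δ : ℂ, IsAlgebraic ℚ δ → δ ≠ 0 → ht δ ≤ κ * Real.log q →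
      OnlyTrivial p D (fun _ : Fin 1 => δ * ∏ i ∈ Finset.range k, ((q : ℂ) + i)) := by
  have hfin : {z : ℂ | z ∈ DegLe ⊥ 1 ∧ IsIntegral ℤ z ∧ (rising k).eval z ≠ 0 ∧ ∃ δ : ℂ,
      IsAlgebraic ℚ δ ∧ δ ≠ 0 ∧ ht δ ≤ κ * ht z ∧
      ¬ OnlyTrivial p D (fun _ : Fin 1 => δ * (rising k).eval z)}.Finite := by
    obtain ⟨C, hC⟩ := values_int h2 h3 hp D ⊥ 1 le_rfl (rising k) (rising_alg k) 1
      le_rfl (rising_mult k) (((k : ℝ) - 1 - κ) / 2) (by linarith)
    refine finite_of ⊥ 1 ((k : ℝ) - 1 - ((k : ℝ) - 1 - κ) / 2) κ C (by linarith) _ ?_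
    rintro z ⟨hz, hzi, hAz, δ, hδ, hδ0, hle, hno⟩
    refine ⟨hz, ht δ, ?_, hle⟩
    have h1 := hC z hz hzi hAz δ hδ hδ0 hno
    rw [rising_deg] at h1
    refine le_trans (le_of_eq ?_) h1
    push_cast
    ring
  have hfin2 := hfin.preimage (f := fun q : ℕ => (q : ℂ)) (fun a _ b _ h => Nat.cast_injective h)
  obtain ⟨N, hN⟩ := hfin2.bddAbove
  refine ⟨N + 1, fun q hq δ hδ hδ0 hle => ?_⟩
  have hq0 : (0 : ℝ) < q := by
    have : 0 < q := by omega
    exact_mod_cast this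
  have hpos : 0 < ∏ i ∈ Finset.range k, ((q : ℝ) + i) :=
    Finset.prod_pos fun i _ => by positivity
  have hev : (((∏ i ∈ Finset.range k, ((q : ℝ) + i)) : ℝ) : ℂ) = (rising k).eval (q : ℂ) := by
    rw [rising_eval]
    push_cast
    rfl
  rw [← rising_eval]
  by_contra hno
  have hmem : q ∈ (fun q : ℕ => (q : ℂ)) ⁻¹' {z : ℂ | z ∈ DegLe ⊥ 1 ∧ IsIntegral ℤ z ∧
      (rising k).eval z ≠ 0 ∧ ∃ δ : ℂ, IsAlgebraic ℚ δ ∧ δ ≠ 0 ∧ ht δ ≤ κ * ht z ∧
      ¬ OnlyTrivial p D (fun _ : Fin 1 => δ * (rising k).eval z)} := by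
    refine ⟨nat_deg q, isIntegral_natCast q, ?_, δ, hδ, hδ0, ?_, hno⟩
    · rw [← hev]
      exact Complex.ofReal_ne_zero.2 hpos.ne'
    · rw [ht_nat (by omega)]
      exact hle
  have h1 := hN hmem
  omega

/-- **Main result.** (0) `ht` is the absolute logarithmic height. (1) The height inequality for
several functions. (2), (3) The height inequalities for one function, and for one polynomial and
algebraic integers. (4) The finiteness which follows from (1). (5) Products of consecutive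
integers. -/
theorem result :
    -- (0)
    (∀ (L : Type) [Field L] [NumberField L] (φ : L →+* ℂ) (y : L),
      ht (φ y) = Height.logHeight₁ y / Module.finrank ℚ L) ∧
    ∀ L : PeriodPair, IsAlgebraic ℚ L.g₂ → IsAlgebraic ℚ L.g₃ → ∀ (n : ℕ) (p : Fin n → ℂ),
    EllipticLogs L p → ∀ D : ℕ,
    -- (1)
    (∀ K : IntermediateField ℚ ℂ,
      FiniteDimensional ℚ K → ∀ d : ℕ, 1 ≤ d → ∀ (k : ℕ) (A B : Fin k → Polynomial ℂ),
      (∀ j, A j ∈ AlgPoly) → (∀ j, B j ∈ AlgPoly) → Separate A B → ∀ N : ℕ,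
      (∀ j, N ≤ (A j).natDegree + (B j).natDegree) → ∀ ε : ℝ, 0 < ε → ∃ C : ℝ,
      ∀ z ∈ DegLe K d, (∀ j, (A j).eval z ≠ 0 ∧ (B j).eval z ≠ 0) → ∀ δ : Fin k → ℂ,
        (∀ j, IsAlgebraic ℚ (δ j)) → ∀ H : ℝ, (∀ j, ht (δ j) ≤ H) →
        ¬ OnlyTrivial p D (fun j => δ j * ((A j).eval z / (B j).eval z)) →
        (((N : ℝ) - 2 * d) / 2 - ε) * ht z - C ≤ H ∧
        (IsIntegral ℤ z → (((N : ℝ) - (2 * d - 1)) / 2 - ε) * ht z - C ≤ H)) ∧
    -- (2)
    (∀ K : IntermediateField ℚ ℂ,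
      FiniteDimensional ℚ K → ∀ d : ℕ, 1 ≤ d → ∀ A ∈ AlgPoly, ∀ B ∈ AlgPoly, IsCoprime A B →
      ∀ m m' : ℕ, 1 ≤ m → 1 ≤ m' → ZerosLe A B m → ZerosLe B A m' → ∀ ε : ℝ, 0 < ε → ∃ C : ℝ,
      ∀ z ∈ DegLe K d, A.eval z ≠ 0 → B.eval z ≠ 0 → ∀ δ : ℂ, IsAlgebraic ℚ δ → δ ≠ 0 →
        ¬ OnlyTrivial p D (fun _ : Fin 1 => δ * (A.eval z / B.eval z)) →
        (max (A.natDegree : ℝ) B.natDegree - 2 * d * (m * m' / (m + m')) - ε) * ht z - C ≤ ht δ) ∧
    -- (3)
    (∀ K : IntermediateField ℚ ℂ,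
      FiniteDimensional ℚ K → ∀ d : ℕ, 1 ≤ d → ∀ A ∈ AlgPoly, ∀ m : ℕ, 1 ≤ m →
      (∀ a, A.rootMultiplicity a ≤ m) → ∀ ε : ℝ, 0 < ε → ∃ C : ℝ,
      ∀ z ∈ DegLe K d, IsIntegral ℤ z → A.eval z ≠ 0 → ∀ δ : ℂ, IsAlgebraic ℚ δ → δ ≠ 0 →
        ¬ OnlyTrivial p D (fun _ : Fin 1 => δ * A.eval z) →
        (A.natDegree - (2 * d - 1) * m - ε) * ht z - C ≤ ht δ) ∧
    -- (4)
    (∀ K : IntermediateField ℚ ℂ,
      FiniteDimensional ℚ K → ∀ d : ℕ, 1 ≤ d → ∀ (k : ℕ) (A B : Fin k → Polynomial ℂ),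
      (∀ j, A j ∈ AlgPoly) → (∀ j, B j ∈ AlgPoly) → Separate A B → ∀ N : ℕ,
      (∀ j, N ≤ (A j).natDegree + (B j).natDegree) → ∀ κ : ℝ,
      {z : ℂ | z ∈ DegLe K d ∧ (κ < ((N : ℝ) - 2 * d) / 2 ∨
          (IsIntegral ℤ z ∧ κ < ((N : ℝ) - (2 * d - 1)) / 2)) ∧
        (∀ j, (A j).eval z ≠ 0 ∧ (B j).eval z ≠ 0) ∧ ∃ δ : Fin k → ℂ,
        (∀ j, IsAlgebraic ℚ (δ j) ∧ δ j ≠ 0 ∧ ht (δ j) ≤ κ * ht z) ∧
        ¬ OnlyTrivial p D (fun j => δ j * ((A j).eval z / (B j).eval z))}.Finite) ∧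
    -- (5)
    (∀ (k : ℕ) (κ : ℝ), κ < k - 1 → ∃ N : ℕ, ∀ q : ℕ, N ≤ q → ∀ δ : ℂ, IsAlgebraic ℚ δ → δ ≠ 0 →
      ht δ ≤ κ * Real.log q →
      OnlyTrivial p D (fun _ : Fin 1 => δ * ∏ i ∈ Finset.range k, ((q : ℂ) + i))) := by
  refine ⟨fun L _ _ φ y => ht_field L φ y, fun L h2 h3 n p hp D => ⟨?_, ?_, ?_, ?_,
    fun k κ hκ => consecutive h2 h3 hp D k κ hκ⟩⟩
  · intro K hK d hd k A B hA hB hAB N hN ε hε
    exact values_multi h2 h3 hp D K d hd A B hA hB hAB N hN ε hε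
  · intro K hK d hd A hA B hB hAB m m' hm0 hm0' hm hm' ε hε
    exact values_one h2 h3 hp D K d hd A B hA hB hAB m m' hm0 hm0' hm hm' ε hε
  · intro K hK d hd A hA m hm0 hm ε hε
    exact values_int h2 h3 hp D K d hd A hA m hm0 hm ε hε
  · intro K hK d hd k A B hA hB hAB N hN κ
    exact finite_multi h2 h3 hp D K d hd A B hA hB hAB N hN κ

end Pool.Agent.Results.MP_c9768e_nt.ArbitraryLogsNearValues
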