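import Pool.Agent.H445.ET.D
import Pool.Agent.H445.GT.E
import Pool.Graph.R_seed8.Y776.EtProof
import Pool.Graph.R_seed8.Y776.ET.Fin

/-!
# MP_c9768e_nt: logarithms and elliptic logarithms, and the field of definition of the points

`L` is a pair of periods with algebraic invariants `g₂, g₃`, `k = ℚ ⊗ End(ℂ / L)`. We consider the part `m = n` of the
problem: are logarithms `t` of algebraic numbers, independent over `ℚ`, and elliptic logarithms `p` of algebraic points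
(`℘(p_i)` algebraic), independent over `k`, algebraically independent?

Let `T(n,s;r;e,m)` be the set of all `(p,t) ∈ ℂ^n × ℂ^s` (dependent or not, `p_i ∉ L`) with
`trdeg ℚ(℘(p), e^t) ≤ r` and `trdeg ℚ(p, ℘(p), t, e^t) + m ≤ e + dim_k ⟨p⟩ + dim_ℚ ⟨t⟩`. For `r = 0` and `e = 0`,
`m = 1` these are the counterexamples. We compute the Hausdorff dimension of all these sets and show that the question
is equivalent to statements on the size of the sets for `r ≥ 1`.
-/

set_option autoImplicit false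

open Set Module
open scoped PeriodPair ENNReal

noncomputable section

namespace Pool.Agent.Results.MP_c9768e_nt.DimensionByFieldOfDefinition

open Pool.Agent.Y776.Et (k trd rank_finite trd_of_rank)
open Pool.Agent.H445
open Pool.Agent.TH813.Ell Pool.Agent.W245.EB H667R3
open Pool.Agent.TH813.Rel (MK subset_cl rk_le_of_subset_cl)
open Pool.Agent.Y685 (EP clo subset_clo mem_clo_iff rank_add)
open Pool.Agent.Y776 (ET_finite)

/-- The coordinates `℘(p_i)`, `e^{t_k}` of the points. -/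
def coords (L : PeriodPair) {n s : ℕ} (p : Fin n → ℂ) (t : Fin s → ℂ) : Set ℂ :=
  (range fun i => ℘[L] (p i)) ∪ range fun i => Complex.exp (t i)

/-- The numbers `t_k, e^{t_k}, p_i, ℘(p_i)`. -/
def numbers (L : PeriodPair) {n s : ℕ} (p : Fin n → ℂ) (t : Fin s → ℂ) : Set ℂ :=
  ((range t) ∪ range fun i => Complex.exp (t i)) ∪ ((range p) ∪ range fun i => ℘[L] (p i))

/-- The dimension of the `k`-span of the points. -/
def dimK (L : PeriodPair) {n : ℕ} (p : Fin n → ℂ) : ℕ := finrank (k L) (Submodule.span (k L) (range p))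

/-- The dimension of the `ℚ`-span of the exponents. -/
def dimQt {s : ℕ} (t : Fin s → ℂ) : ℕ := finrank ℚ (Submodule.span ℚ (range t))

/-- The set `T(n,s;r;e,m)`. -/
def T (L : PeriodPair) (n s r e m : ℕ) : Set ((Fin n → ℂ) × (Fin s → ℂ)) :=
  {w | (∀ i, w.1 i ∉ L.lattice) ∧ trd ℚ (coords L w.1 w.2) ≤ r ∧
    trd ℚ (numbers L w.1 w.2) + m ≤ ((e + dimQt w.2 + dimK L w.1 : ℕ) : Cardinal)}

/-- The largest `d = b + a ≤ r` such that `T(n - b, s - a; r - d; e, m + d)` is not empty (zero if there is none). -/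
def level (L : PeriodPair) (n s r e m : ℕ) : ℕ :=
  sSup {d | d ≤ r ∧ ∃ b a : ℕ, b ≤ n ∧ a ≤ s ∧ b + a = d ∧ (T L (n - b) (s - a) (r - d) e (m + d)).Nonempty}

/-- The inequality `trdeg ℚ(p, ℘(p), t, e^t) + m ≥ dim_k ⟨p⟩ + dim_ℚ ⟨t⟩` for all points over fields of
transcendence degree at most `r`. -/
def Holds (L : PeriodPair) (r m : ℕ) : Prop :=
  ∀ (n s : ℕ) (p : Fin n → ℂ) (t : Fin s → ℂ), (∀ i, p i ∉ L.lattice) → trd ℚ (coords L p t) ≤ r →
    ((dimQt t + dimK L p : ℕ) : Cardinal) ≤ trd ℚ (numbers L p t) + m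

/-- The statement of the problem for the lattice `L` and `m = n`. -/
def LogsIndependent (L : PeriodPair) : Prop :=
  ∀ (s n : ℕ) (t : Fin s → ℂ) (p : Fin n → ℂ), LinearIndependent ℚ t →
    (∀ l, IsAlgebraic ℚ (Complex.exp (t l))) → (∀ i, p i ∉ L.lattice) → LinearIndependent (k L) p →
    (∀ i, IsAlgebraic ℚ (℘[L] (p i))) → AlgebraicIndependent ℚ (Sum.elim t p)

variable {L : PeriodPair} {n s r e m : ℕ}

theorem exists_rank {S : Set ℂ} (hS : S.Finite) :
    ∃ g : ℕ, (MK (⊥ : IntermediateField ℚ ℂ)).eRk S = (g : ℕ∞) ∧ trd ℚ S = (g : Cardinal) := by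
  obtain ⟨g, hg⟩ := rank_finite (K := ℚ) hS
  refine ⟨g, ?_, trd_of_rank hg⟩
  rw [← MJ.FR_bot, Pool.Agent.Y685.MK_FR ℚ, hg]

theorem type_eq (h2 : IsAlgebraic ℚ L.g₂) (h3 : IsAlgebraic ℚ L.g₃) {S : Set ℂ} (hS : S.Finite) :
    (MK (C0 L)).eRk S = (MK (⊥ : IntermediateField ℚ ℂ)).eRk S := by
  have hf : ({L.g₂, L.g₃} : Set ℂ).Finite := by simp
  have h0 : (MK (⊥ : IntermediateField ℚ ℂ)).eRk {L.g₂, L.g₃} = 0 := by
    have := (rk_zero_iff (S := {L.g₂, L.g₃})).2 (by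
      rintro s (rfl | rfl)
      · exact h2
      · exact h3)
    simpa using this
  have h1 := rank_add (C := (⊥ : IntermediateField ℚ ℂ)) hf hS
  rw [h0, zero_add] at h1
  rw [← h1]
  apply le_antisymm
  · apply rk_le_of_subset_cl
    rintro x ((rfl | rfl) | hx)
    · exact alg_mem_cl h2 _
    · exact alg_mem_cl h3 _
    · exact subset_cl _ hx
  · exact (MK _).eRk_mono subset_union_right

theorem dimQ_bot {F : Type} [Field F] [Module F ℂ] {n : ℕ} (z : Fin n → ℂ) :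
    dimQ (⊥ : Submodule F ℂ) z = finrank F (Submodule.span F (range z)) := by
  have h1 : Submodule.span F (range fun i => (⊥ : Submodule F ℂ).mkQ (z i)) =
      (Submodule.span F (range z)).map (⊥ : Submodule F ℂ).mkQ := by
    rw [Submodule.map_span, ← range_comp]
    rfl
  rw [dimQ, h1]
  exact LinearEquiv.finrank_eq (Submodule.equivMapOfInjective _
    (LinearMap.ker_eq_bot.1 (Submodule.ker_mkQ ⊥)) _).symm

theorem coords_eq (p : Fin n → ℂ) (t : Fin s → ℂ) : coords L p t = TYE L p t := union_comm _ _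

theorem numbers_eq (p : Fin n → ℂ) (t : Fin s → ℂ) : numbers L p t = Pool.Agent.Y776.ET t ∪ E1 L p := rfl

theorem numbers_fin (p : Fin n → ℂ) (t : Fin s → ℂ) : (Pool.Agent.Y776.ET t ∪ E1 L p).Finite :=
  (ET_finite t).union (E1_finite p)

/-- the two components of a vector -/
def split (n s : ℕ) : (Fin (n + s) → ℂ) →L[ℂ] (Fin n → ℂ) × (Fin s → ℂ) :=
  (ContinuousLinearMap.pi fun i => ContinuousLinearMap.proj (Fin.castAdd s i)).prod
    (ContinuousLinearMap.pi fun i => ContinuousLinearMap.proj (Fin.natAdd n i))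

/-- the vector with given components -/
def join (n s : ℕ) : (Fin n → ℂ) × (Fin s → ℂ) →L[ℂ] (Fin (n + s) → ℂ) :=
  ContinuousLinearMap.pi (Fin.addCases
    (fun i => (ContinuousLinearMap.proj i).comp (ContinuousLinearMap.fst ℂ _ _))
    (fun i => (ContinuousLinearMap.proj i).comp (ContinuousLinearMap.snd ℂ _ _)))

theorem join_split (w : Fin (n + s) → ℂ) : join n s (split n s w) = w := by
  funext i
  refine Fin.addCases (fun i => ?_) (fun i => ?_) i
  · simp [join, split]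
  · simp [join, split]

theorem split_join (w : (Fin n → ℂ) × (Fin s → ℂ)) : split n s (join n s w) = w := by
  refine Prod.ext (funext fun i => ?_) (funext fun i => ?_)
  · simp [join, split]
  · simp [join, split]

theorem mem_V (h2 : IsAlgebraic ℚ L.g₂) (h3 : IsAlgebraic ℚ L.g₃)
    {w : Fin (n + s) → ℂ} : w ∈ VU L e n s r m ↔ split n s w ∈ T L n s r e m := by
  have hT : ∀ (p : Fin n → ℂ) (t : Fin s → ℂ), ((MK (C0 L)).eRk (TYE L p t) ≤ (r : ℕ∞) ↔
      trd ℚ (coords L p t) ≤ r) := by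
    intro p t
    obtain ⟨ρ, h4, h5⟩ := exists_rank (TYE_finite (L := L) p t)
    rw [type_eq h2 h3 (TYE_finite p t), h4, coords_eq, h5]
    norm_cast
  have hN : ∀ (p : Fin n → ℂ) (t : Fin s → ℂ), ((MK (C0 L)).eRk (Pool.Agent.Y776.ET t ∪ E1 L p) + m ≤
      ((dimQ B0 t + e + dimQ (A0 L) p : ℕ) : ℕ∞) ↔
      trd ℚ (numbers L p t) + m ≤ ((e + dimQt t + dimK L p : ℕ) : Cardinal)) := by
    intro p t
    obtain ⟨ρ, h4, h5⟩ := exists_rank (numbers_fin (L := L) p t)
    have h6 : dimQ B0 t = dimQt t := dimQ_bot t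
    have h7 : dimQ (A0 L) p = dimK L p := dimQ_bot p
    rw [type_eq h2 h3 (numbers_fin p t), h4, numbers_eq, h5, h6, h7, add_comm (dimQt t) e]
    norm_cast
  constructor
  · rintro ⟨a1, a2, a3⟩
    exact ⟨a1, (hT _ _).1 a2, (hN _ _).1 a3⟩
  · rintro ⟨a1, a2, a3⟩
    exact ⟨a1, (hT _ _).2 a2, (hN _ _).2 a3⟩

theorem T_eq (h2 : IsAlgebraic ℚ L.g₂) (h3 : IsAlgebraic ℚ L.g₃) :
    T L n s r e m = split n s '' VU L e n s r m := by
  ext w
  constructor
  · intro hw
    refine ⟨join n s w, ?_, split_join w⟩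
    rw [mem_V h2 h3, split_join]
    exact hw
  · rintro ⟨u, hu, rfl⟩
    exact (mem_V h2 h3).1 hu

theorem V_eq (h2 : IsAlgebraic ℚ L.g₂) (h3 : IsAlgebraic ℚ L.g₃) :
    VU L e n s r m = join n s '' T L n s r e m := by
  ext w
  constructor
  · intro hw
    exact ⟨split n s w, (mem_V h2 h3).1 hw, join_split w⟩
  · rintro ⟨u, hu, rfl⟩
    rw [mem_V h2 h3, split_join]
    exact hu

theorem nonempty_iff (h2 : IsAlgebraic ℚ L.g₂) (h3 : IsAlgebraic ℚ L.g₃) :
    (T L n s r e m).Nonempty ↔ (VU L e n s r m).Nonempty := by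
  rw [T_eq h2 h3, Set.image_nonempty]

theorem dimH_eq (h2 : IsAlgebraic ℚ L.g₂) (h3 : IsAlgebraic ℚ L.g₃) :
    dimH (T L n s r e m) = dimH (VU L e n s r m) := by
  apply le_antisymm
  · rw [T_eq h2 h3]
    exact (split n s).lipschitz.dimH_image_le _
  · conv_lhs => rw [V_eq h2 h3]
    exact (join n s).lipschitz.dimH_image_le _

theorem countable_eq (h2 : IsAlgebraic ℚ L.g₂) (h3 : IsAlgebraic ℚ L.g₃) :
    (T L n s r e m).Countable ↔ (VU L e n s r m).Countable := by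
  constructor
  · intro h
    rw [V_eq h2 h3]
    exact h.image _
  · intro h
    rw [T_eq h2 h3]
    exact h.image _

/-- the levels -/
def Lev (L : PeriodPair) (n s r e m : ℕ) : Set ℕ :=
  {d | d ≤ r ∧ ∃ b a : ℕ, b ≤ n ∧ a ≤ s ∧ b + a = d ∧ (T L (n - b) (s - a) (r - d) e (m + d)).Nonempty}

theorem Lev_eq (h2 : IsAlgebraic ℚ L.g₂) (h3 : IsAlgebraic ℚ L.g₃) :
    Lev L n s r e m = LevU L e n s r m := by
  unfold Lev LevU
  simp only [nonempty_iff h2 h3]

theorem dim_eq (h2 : IsAlgebraic ℚ L.g₂) (h3 : IsAlgebraic ℚ L.g₃) :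
    dimH (T L n s r e m) = ((2 * level L n s r e m : ℕ) : ℝ≥0∞) := by
  have h : level L n s r e m = sSup (Lev L n s r e m) := rfl
  rw [h, dimH_eq h2 h3, Lev_eq h2 h3]
  exact dimU

theorem Lev_down (h2 : IsAlgebraic ℚ L.g₂) (h3 : IsAlgebraic ℚ L.g₃) {d d' : ℕ} (hd : d' ≤ d)
    (h : d ∈ Lev L n s r e m) : d' ∈ Lev L n s r e m := by
  rw [Lev_eq h2 h3] at h ⊢
  exact LevU_down hd h

theorem Lev_bdd : BddAbove (Lev L n s r e m) := ⟨r, fun _ h => h.1⟩

theorem countable_iff (h2 : IsAlgebraic ℚ L.g₂) (h3 : IsAlgebraic ℚ L.g₃) :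
    (T L n s r e m).Countable ↔ 1 ∉ Lev L n s r e m := by
  rw [countable_eq h2 h3, Lev_eq h2 h3]
  exact countableU

theorem level_le_iff (h2 : IsAlgebraic ℚ L.g₂) (h3 : IsAlgebraic ℚ L.g₃) {d : ℕ} :
    dimH (T L n s r e m) ≤ ((2 * d : ℕ) : ℝ≥0∞) ↔ d + 1 ∉ Lev L n s r e m := by
  rw [dim_eq h2 h3, Nat.cast_le]
  have h : level L n s r e m = sSup (Lev L n s r e m) := rfl
  rw [h]
  constructor
  · intro h1 h4
    have := le_csSup Lev_bdd h4
    omega
  · intro h1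
    by_contra h4
    apply h1
    rcases (Lev L n s r e m).eq_empty_or_nonempty with h5 | h5
    · rw [h5, csSup_empty] at h4
      exact absurd (Nat.zero_le _) h4
    · exact Lev_down h2 h3 (by omega) (Nat.sSup_mem h5 Lev_bdd)

/-- the threshold -/
theorem threshold (h2 : IsAlgebraic ℚ L.g₂) (h3 : IsAlgebraic ℚ L.g₃) (n s r e m d : ℕ) :
    dimH (T L n s (r + d + 1) e m) ≤ ((2 * d : ℕ) : ℝ≥0∞) ↔
      ∀ b a : ℕ, b ≤ n → a ≤ s → b + a = d + 1 → T L (n - b) (s - a) r e (m + d + 1) = ∅ := by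
  rw [level_le_iff h2 h3]
  have e1 : r + d + 1 - (d + 1) = r := by omega
  constructor
  · intro h b a hb ha hba
    by_contra hne
    refine h ⟨by omega, b, a, hb, ha, hba, ?_⟩
    rw [e1]
    exact nonempty_iff_ne_empty.2 hne
  · rintro h ⟨-, b, a, hb, ha, hba, h4⟩
    rw [e1, ← add_assoc, h b a hb ha hba] at h4
    exact not_nonempty_empty h4

/-- the shift of the error -/
theorem T_shift (L : PeriodPair) (n s r e m d : ℕ) : T L n s r (e + d) (m + d) = T L n s r e m := by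
  ext w
  change (_ ∧ _ ∧ _) ↔ (_ ∧ _ ∧ _)
  refine and_congr_right fun hp => and_congr_right fun _ => ?_
  rw [numbers_eq]
  obtain ⟨ρ, -, h5⟩ := exists_rank (numbers_fin (L := L) w.1 w.2)
  rw [h5]
  norm_cast
  omega

theorem holds_iff (L : PeriodPair) (r m : ℕ) : Holds L r m ↔ ∀ n s, T L n s r 0 (m + 1) = ∅ := by
  have key : ∀ {n s : ℕ} (p : Fin n → ℂ) (t : Fin s → ℂ),
      (((dimQt t + dimK L p : ℕ) : Cardinal) ≤ trd ℚ (numbers L p t) + m ↔
      ¬ (trd ℚ (numbers L p t) + ((m + 1 : ℕ) : Cardinal) ≤ ((0 + dimQt t + dimK L p : ℕ) : Cardinal))) := by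
    intro n s p t
    rw [numbers_eq]
    obtain ⟨ρ, -, h5⟩ := exists_rank (numbers_fin (L := L) p t)
    rw [h5]
    norm_cast
    omega
  constructor
  · intro h n s
    rw [Set.eq_empty_iff_forall_notMem]
    rintro w ⟨h1, h4, h5⟩
    exact (key w.1 w.2).1 (h n s w.1 w.2 h1 h4) h5
  · intro h n s p t h1 h4
    rw [key p t]
    intro h5
    have h6 : (p, t) ∈ T L n s r 0 (m + 1) := ⟨h1, h4, h5⟩
    rw [h] at h6
    exact h6

/-- the inequality and the dimensions -/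
theorem holds_dim (h2 : IsAlgebraic ℚ L.g₂) (h3 : IsAlgebraic ℚ L.g₃) (r m d : ℕ) :
    Holds L r m ↔ ∀ n s, dimH (T L n s (r + d + 1) d m) ≤ ((2 * d : ℕ) : ℝ≥0∞) := by
  rw [holds_iff]
  constructor
  · intro h n s
    rw [threshold h2 h3]
    intro b a _ _ _
    have h4 := T_shift L (n - b) (s - a) r 0 (m + 1) d
    rw [zero_add] at h4
    have e1 : m + d + 1 = m + 1 + d := by omega
    rw [e1, h4]
    exact h _ _
  · intro h n s
    have h5 := (threshold h2 h3 (n + (d + 1)) s r d m d).1 (h _ _) (d + 1) 0 (by omega) (by omega) rfl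
    have h4 := T_shift L n s r 0 (m + 1) d
    rw [zero_add] at h4
    have e1 : m + d + 1 = m + 1 + d := by omega
    rw [e1, Nat.add_sub_cancel, Nat.sub_zero, h4] at h5
    exact h5

/-- the trivial tuples -/
theorem T_zero (h2 : IsAlgebraic ℚ L.g₂) (h3 : IsAlgebraic ℚ L.g₃) (n s r : ℕ) :
    (T L n s r 0 0).Nonempty := by
  rw [nonempty_iff h2 h3]
  refine VU_nonempty.2 ⟨0, 0, Nat.zero_le _, Nat.zero_le _, SU_nonempty.2
    ⟨Fin.elim0, Fin.elim0, ⟨fun i => i.elim0, fun c _ _ => Subsingleton.elim _ _,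
      fun c _ => Subsingleton.elim _ _, ?_, ?_⟩⟩⟩
  · have h4 : (Pool.Agent.Y776.ET (Fin.elim0 : Fin 0 → ℂ) ∪ E1 L (Fin.elim0 : Fin 0 → ℂ)) = ∅ := by
      ext x
      constructor
      · rintro ((⟨i, -⟩ | ⟨i, -⟩) | (⟨i, -⟩ | ⟨i, -⟩))
        all_goals exact i.elim0
      · exact fun h => h.elim
    rw [h4]
    simp
  · have h4 : TYE L (Fin.elim0 : Fin 0 → ℂ) (Fin.elim0 : Fin 0 → ℂ) = ∅ := by
      ext x
      constructor
      · rintro (⟨i, -⟩ | ⟨i, -⟩) <;> exact i.elim0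
      · exact fun h => h.elim
    rw [h4]
    simp

/-- the exact value -/
theorem exact_value (h2 : IsAlgebraic ℚ L.g₂) (h3 : IsAlgebraic ℚ L.g₃) (n s d : ℕ) (hd : d ≤ n + s) :
    ((∀ b a : ℕ, b ≤ n → a ≤ s → b + a = d + 1 → T L (n - b) (s - a) 0 0 1 = ∅) →
      dimH (T L n s (d + 1) d 0) = ((2 * d : ℕ) : ℝ≥0∞)) ∧
    ((¬ ∀ b a : ℕ, b ≤ n → a ≤ s → b + a = d + 1 → T L (n - b) (s - a) 0 0 1 = ∅) →
      dimH (T L n s (d + 1) d 0) = ((2 * (d + 1) : ℕ) : ℝ≥0∞)) := by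
  have h4 : d ∈ Lev L n s (d + 1) d 0 := by
    refine ⟨by omega, min d n, d - min d n, by omega, by omega, by omega, ?_⟩
    have h5 := T_shift L (n - min d n) (s - (d - min d n)) (d + 1 - d) 0 0 d
    rw [zero_add] at h5
    rw [zero_add]
    have e0 := h5 ▸ T_zero h2 h3 (n - min d n) (s - (d - min d n)) (d + 1 - d)
    exact e0
  have h6 : level L n s (d + 1) d 0 = sSup (Lev L n s (d + 1) d 0) := rfl
  have h7 := le_csSup Lev_bdd h4
  have h8 : sSup (Lev L n s (d + 1) d 0) ≤ d + 1 := csSup_le ⟨d, h4⟩ fun _ h => h.1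
  have h9 : (∀ b a : ℕ, b ≤ n → a ≤ s → b + a = d + 1 → T L (n - b) (s - a) 0 0 1 = ∅) ↔
      dimH (T L n s (d + 1) d 0) ≤ ((2 * d : ℕ) : ℝ≥0∞) := by
    have h10 := threshold h2 h3 n s 0 d 0 d
    simp only [zero_add] at h10
    rw [h10]
    refine forall_congr' fun b => forall_congr' fun a => forall_congr' fun _ => forall_congr' fun _ =>
      forall_congr' fun _ => ?_
    have h11 := T_shift L (n - b) (s - a) 0 0 1 d
    rw [zero_add, add_comm 1 d] at h11
    rw [h11]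
  rw [h9, dim_eq h2 h3, Nat.cast_le]
  constructor
  · intro h
    congr 2
    omega
  · intro h
    congr 2
    omega

/-- the theorems of Schneider and of Hermite and Lindemann -/
theorem bound (h2 : IsAlgebraic ℚ L.g₂) (h3 : IsAlgebraic ℚ L.g₃) (hem : e < m)
    (h : (T L n s r e m).Nonempty) : m + 1 ≤ e + s + n := by
  obtain ⟨w, h1, -, h5⟩ := h
  rw [numbers_eq] at h5
  obtain ⟨ρ, h6, h7⟩ := exists_rank (numbers_fin (L := L) w.1 w.2)
  rw [h7] at h5
  have h13 : ρ + m ≤ e + dimQt w.2 + dimK L w.1 := by exact_mod_cast h5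
  have h14 : dimQt w.2 ≤ s := by
    have := finrank_range_le_card (R := ℚ) w.2
    rwa [Fintype.card_fin] at this
  have h15 : dimK L w.1 ≤ n := by
    have := finrank_range_le_card (R := k L) w.1
    rwa [Fintype.card_fin] at this
  have h16 : 1 ≤ ρ := by
    rcases Nat.eq_zero_or_pos n with hn | hn
    · have h17 : ∃ i, w.2 i ≠ 0 := by
        by_contra hcon
        push Not at hcon
        have h18 : dimQt w.2 = 0 := by
          have h19 : w.2 = fun _ => 0 := funext hcon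
          unfold dimQt
          rw [h19]
          have h20 : Submodule.span ℚ (range fun _ : Fin s => (0 : ℂ)) = ⊥ := by
            rw [Submodule.span_eq_bot]
            rintro _ ⟨i, rfl⟩
            rfl
          rw [h20, finrank_bot]
        omega
      obtain ⟨i, hi⟩ := h17
      have h18 := one_le_rank alg_bot (x := w.2 i) hi
        (S := Pool.Agent.Y776.ET w.2 ∪ E1 L w.1) (Or.inl (Or.inl ⟨i, rfl⟩)) (Or.inl (Or.inr ⟨i, rfl⟩))
      rw [h6] at h18
      exact_mod_cast h18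
    · have h18 := Pool.Agent.H445.schneider (L := L)
        (S := {L.g₂, L.g₃} ∪ (Pool.Agent.Y776.ET w.2 ∪ E1 L w.1)) (h1 ⟨0, hn⟩)
        (Or.inl (by simp)) (Or.inl (by simp)) (Or.inr (Or.inr (Or.inl ⟨_, rfl⟩)))
        (Or.inr (Or.inr (Or.inr ⟨_, rfl⟩)))
      have h19 : (MK (⊥ : IntermediateField ℚ ℂ)).eRk ({L.g₂, L.g₃} ∪ (Pool.Agent.Y776.ET w.2 ∪ E1 L w.1)) ≤
          (MK (⊥ : IntermediateField ℚ ℂ)).eRk (Pool.Agent.Y776.ET w.2 ∪ E1 L w.1) := by
        apply rk_le_of_subset_cl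
        rintro x ((rfl | rfl) | hx)
        · exact alg_mem_cl h2 _
        · exact alg_mem_cl h3 _
        · exact subset_cl _ hx
      have h20 := h18.trans h19
      rw [h6] at h20
      exact_mod_cast h20
  omega

theorem level_bound (h2 : IsAlgebraic ℚ L.g₂) (h3 : IsAlgebraic ℚ L.g₃) (hem : e < m)
    (h : (T L n s r e m).Nonempty) : m + 2 * level L n s r e m + 1 ≤ e + s + n := by
  have h0 : 0 ∈ Lev L n s r e m := ⟨Nat.zero_le _, 0, 0, Nat.zero_le _, Nat.zero_le _, rfl, h⟩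
  obtain ⟨-, b, a, h1, h4, h5, h6⟩ := Nat.sSup_mem ⟨0, h0⟩ Lev_bdd
  have h7 := bound h2 h3 (by omega) h6
  have h8 : level L n s r e m = sSup (Lev L n s r e m) := rfl
  rw [h8]
  omega

/-- the statement of the problem -/
theorem logs_iff (h2 : IsAlgebraic ℚ L.g₂) (h3 : IsAlgebraic ℚ L.g₃) : LogsIndependent L ↔ Holds L 0 0 := by
  have hcoords : ∀ {n s : ℕ} (p : Fin n → ℂ) (t : Fin s → ℂ), trd ℚ (coords L p t) ≤ ((0 : ℕ) : Cardinal) ↔
      (∀ i, IsAlgebraic ℚ (℘[L] (p i))) ∧ ∀ j, IsAlgebraic ℚ (Complex.exp (t j)) := by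
    intro n s p t
    obtain ⟨ρ, h4, h5⟩ := exists_rank (TYE_finite (L := L) p t)
    have h6 : trd ℚ (coords L p t) ≤ ((0 : ℕ) : Cardinal) ↔
        (MK (⊥ : IntermediateField ℚ ℂ)).eRk (TYE L p t) ≤ ((0 : ℕ) : ℕ∞) := by
      rw [coords_eq, h4, h5]
      norm_cast
    rw [h6, rk_zero_iff]
    constructor
    · intro h
      exact ⟨fun i => h _ (Or.inr ⟨i, rfl⟩), fun j => h _ (Or.inl ⟨j, rfl⟩)⟩
    · rintro ⟨h7, h8⟩ x (⟨i, rfl⟩ | ⟨i, rfl⟩)
      · exact h8 i
      · exact h7 i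
  -- the rank of the numbers over algebraic points
  have hrk : ∀ {n s : ℕ} (p : Fin n → ℂ) (t : Fin s → ℂ), (∀ i, IsAlgebraic ℚ (℘[L] (p i))) →
      (∀ j, IsAlgebraic ℚ (Complex.exp (t j))) →
      (MK (⊥ : IntermediateField ℚ ℂ)).eRk (Pool.Agent.Y776.ET t ∪ E1 L p) =
      (MK (⊥ : IntermediateField ℚ ℂ)).eRk (range t ∪ range p) := by
    intro n s p t h7 h8
    apply le_antisymm
    · apply rk_le_of_subset_cl
      rintro x ((⟨i, rfl⟩ | ⟨i, rfl⟩) | (⟨i, rfl⟩ | ⟨i, rfl⟩))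
      · exact subset_cl _ (Or.inl ⟨i, rfl⟩)
      · exact alg_mem_cl (h8 i) _
      · exact subset_cl _ (Or.inr ⟨i, rfl⟩)
      · exact alg_mem_cl (h7 i) _
    · apply (MK _).eRk_mono
      rintro x (hx | hx)
      · exact Or.inl (Or.inl hx)
      · exact Or.inr (Or.inl hx)
  have hai : ∀ {n s : ℕ} (p : Fin n → ℂ) (t : Fin s → ℂ), (AlgebraicIndependent ℚ (Sum.elim t p) ↔
      ((s + n : ℕ) : ℕ∞) ≤ (MK (⊥ : IntermediateField ℚ ℂ)).eRk (range t ∪ range p)) := by
    intro n s p t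
    rw [algInd_iff, Set.Sum.elim_range, Fintype.card_sum, Fintype.card_fin, Fintype.card_fin,
      ← Pool.Agent.Y685.MK_FR ℚ, MJ.FR_bot]
  constructor
  · intro h n s p t h1 h4
    obtain ⟨h5, h6⟩ := (hcoords p t).1 (by simpa using h4)
    obtain ⟨σ, hσ, -⟩ := exists_sub (A0 L) p
    obtain ⟨τ, hτ, -⟩ := exists_sub B0 t
    have e1 : dimQ (A0 L) p = dimK L p := dimQ_bot p
    have e2 : dimQ B0 t = dimQt t := dimQ_bot t
    have h7 : LinearIndependent (k L) (fun i => p (σ i)) :=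
      LinearIndependent.of_comp (A0 L).mkQ hσ
    have h8 : LinearIndependent ℚ (fun i => t (τ i)) := LinearIndependent.of_comp B0.mkQ hτ
    have h9 := (hai (fun i => p (σ i)) (fun i => t (τ i))).1
      (h _ _ _ _ h8 (fun l => h6 _) (fun i => h1 _) h7 fun i => h5 _)
    have h10 : ((dimQ B0 t + dimQ (A0 L) p : ℕ) : ℕ∞) ≤
        (MK (⊥ : IntermediateField ℚ ℂ)).eRk (Pool.Agent.Y776.ET t ∪ E1 L p) := by
      rw [hrk p t h5 h6]
      refine h9.trans ((MK _).eRk_mono ?_)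
      rintro x (⟨i, rfl⟩ | ⟨i, rfl⟩)
      · exact Or.inl ⟨_, rfl⟩
      · exact Or.inr ⟨_, rfl⟩
    obtain ⟨ρ, h11, h12⟩ := exists_rank (numbers_fin (L := L) p t)
    rw [numbers_eq, h12]
    rw [h11, e1, e2] at h10
    have h13 : dimQt t + dimK L p ≤ ρ := by exact_mod_cast h10
    exact_mod_cast (by omega : dimQt t + dimK L p ≤ ρ + 0)
  · intro h s n t p h4 h5 h1 h6 h7
    rw [hai]
    have h8 := h n s p t h1 (by
      have := (hcoords p t).2 ⟨h7, h5⟩
      simpa using this)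
    obtain ⟨ρ, h11, h12⟩ := exists_rank (numbers_fin (L := L) p t)
    rw [numbers_eq, h12] at h8
    rw [← hrk p t h7 h5, h11]
    have e1 : dimK L p = n := by
      unfold dimK
      rw [finrank_span_eq_card h6, Fintype.card_fin]
    have e2 : dimQt t = s := by
      unfold dimQt
      rw [finrank_span_eq_card h4, Fintype.card_fin]
    rw [e1, e2] at h8
    have h13 : s + n ≤ ρ + 0 := by exact_mod_cast h8
    exact_mod_cast (by omega : s + n ≤ ρ)

/-- **The theorem** -/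
theorem result (L : PeriodPair) (h2 : IsAlgebraic ℚ L.g₂) (h3 : IsAlgebraic ℚ L.g₃) :
    -- the exact dimension
    (∀ n s r e m : ℕ, dimH (T L n s r e m) = ((2 * level L n s r e m : ℕ) : ℝ≥0∞) ∧
      (e < m → (T L n s r e m).Nonempty → m + 2 * level L n s r e m + 1 ≤ e + s + n)) ∧
    -- countability
    (∀ n s r e m : ℕ, (T L n s r e m).Countable ↔
      (1 ≤ r → (1 ≤ n → T L (n - 1) s (r - 1) e (m + 1) = ∅) ∧ (1 ≤ s → T L n (s - 1) (r - 1) e (m + 1) = ∅))) ∧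
    -- the threshold
    (∀ n s r e m d : ℕ, dimH (T L n s (r + d + 1) e m) ≤ ((2 * d : ℕ) : ℝ≥0∞) ↔
      ∀ b a : ℕ, b ≤ n → a ≤ s → b + a = d + 1 → T L (n - b) (s - a) r e (m + d + 1) = ∅) ∧
    -- the inequality over fields of transcendence degree at most `r`
    (∀ r m d : ℕ, Holds L r m ↔ ∀ n s, dimH (T L n s (r + d + 1) d m) ≤ ((2 * d : ℕ) : ℝ≥0∞)) ∧
    (∀ r m : ℕ, Holds L r m ↔ ∀ n s, (T L n s (r + 1) 0 m).Countable) ∧
    -- the problem
    (LogsIndependent L ↔ Holds L 0 0) ∧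
    -- the exact value
    (∀ n s d : ℕ, d ≤ n + s →
      ((∀ b a : ℕ, b ≤ n → a ≤ s → b + a = d + 1 → T L (n - b) (s - a) 0 0 1 = ∅) →
        dimH (T L n s (d + 1) d 0) = ((2 * d : ℕ) : ℝ≥0∞)) ∧
      ((¬ ∀ b a : ℕ, b ≤ n → a ≤ s → b + a = d + 1 → T L (n - b) (s - a) 0 0 1 = ∅) →
        dimH (T L n s (d + 1) d 0) = ((2 * (d + 1) : ℕ) : ℝ≥0∞))) := by
  have hc : ∀ n s r e m : ℕ, (T L n s r e m).Countable ↔
      (1 ≤ r → (1 ≤ n → T L (n - 1) s (r - 1) e (m + 1) = ∅) ∧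
        (1 ≤ s → T L n (s - 1) (r - 1) e (m + 1) = ∅)) := by
    intro n s r e m
    rw [countable_iff h2 h3]
    constructor
    · intro h hr
      refine ⟨fun hn => ?_, fun hs => ?_⟩
      · by_contra hne
        exact h ⟨hr, 1, 0, hn, Nat.zero_le _, rfl, nonempty_iff_ne_empty.2 hne⟩
      · by_contra hne
        exact h ⟨hr, 0, 1, Nat.zero_le _, hs, rfl, nonempty_iff_ne_empty.2 hne⟩
    · rintro h ⟨hr, b, a, hb, ha, hab, h4⟩
      obtain ⟨h5, h6⟩ := h hr
      rcases Nat.eq_zero_or_pos b with rfl | hb0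
      · obtain rfl : a = 1 := by omega
        rw [Nat.sub_zero, h6 ha] at h4
        exact not_nonempty_empty h4
      · obtain ⟨rfl, rfl⟩ : b = 1 ∧ a = 0 := by omega
        rw [Nat.sub_zero, h5 hb] at h4
        exact not_nonempty_empty h4
  refine ⟨fun n s r e m => ⟨dim_eq h2 h3, fun hem h => level_bound h2 h3 hem h⟩, hc, threshold h2 h3,
    holds_dim h2 h3, ?_, logs_iff h2 h3, fun n s d hd => exact_value h2 h3 n s d hd⟩
  intro r m
  rw [holds_iff]
  constructor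
  · intro h n s
    rw [hc]
    intro _
    rw [Nat.add_sub_cancel]
    exact ⟨fun _ => h _ _, fun _ => h _ _⟩
  · intro h n s
    have h4 := ((hc (n + 1) s (r + 1) 0 m).1 (h _ _) (by omega)).1 (by omega)
    rwa [Nat.add_sub_cancel, Nat.add_sub_cancel] at h4

end Pool.Agent.Results.MP_c9768e_nt.DimensionByFieldOfDefinition
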